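import Pool.Agent.K1H14.VD.Defs
import Pool.Agent.K1H14.LD.Coh
import Pool.Agent.K1H14.LN.Fin

/-!
# Adequate relations and vector bundles
-/

open CategoryTheory AlgebraicGeometry

universe u v w t

namespace Pool.Agent.K1H14.VD

open Pool.Agent.H914 Pool.Agent.H914.VarClass Pool.Agent.H914.VarClass.Obj Pool.Agent.W492.BB
  Pool.Agent.W550.Corr Pool.Agent.TH133 Pool.Agent.TH829.Prime Pool.Agent.TH829.Kim
  Pool.Agent.K1H14.LD

set_option linter.unusedSectionVars false

variable {k : Type u} [Field k] {𝒱 : VarClass k} {C : TheoryData.{u, v, 0} 𝒱 ℚ}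
  [hC : IsChowProj C] {B : BundleData.{u, v, t} C} [hB : IsBundles B] {X Y : 𝒱.Obj}

include hC

/-- Powers of divisor classes. -/
lemma pow_deg {D : C.A X} (hD : C.Deg 1 D) (j : ℕ) : D ^ j ∈ C.gr X j := by
  induction j with
  | zero => rw [pow_zero]; exact C.one_mem X
  | succ j ih =>
    rw [pow_succ]
    have := C.mul_mem ih hD
    push_cast
    exact this

lemma pow_mem_of_le {I : Family C} (hI : IsAdequate C I) {D : C.A X} (hD : C.Deg 1 D) {i j : ℕ}
    (hij : i ≤ j) (h : D ^ i ∈ I X i) : D ^ j ∈ I X j := by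
  obtain ⟨l, rfl⟩ := Nat.exists_eq_add_of_le hij
  rw [pow_add]
  push_cast
  exact hI.mul_mem h (pow_deg hD l)

include hB

/-- The components of the Chern character of positive degree lie in `I`. -/
def Triv (I : Family C) (E : B.Bun X) : Prop := ∀ n : ℕ, 1 ≤ n → B.ch E n ∈ I X n

lemma triv_iff {I : Family C} (hI : IsAdequate C I) (E : B.Bun X) :
    Triv I E ↔ ∀ n : ℕ, 1 ≤ n → B.chern E n ∈ I X n := by
  constructor
  · intro h n hn
    have h1 := hB.hasChernClasses.newton E n hn
    have h2 : ((-1) ^ n * n : ℚ) • B.chern E n ∈ I X n := by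
      rw [add_comm] at h1
      rw [eq_neg_of_add_eq_zero_left h1]
      refine Submodule.neg_mem _ (Submodule.sum_mem _ fun j hj => Submodule.smul_mem _ _ ?_)
      rw [Finset.mem_range] at hj
      refine hI.congr ?_ (hI.mul_mem' (hB.hasChernClasses.chern_mem E j) (h (n - j) (by omega)))
      rw [Nat.cast_sub hj.le]; ring
    have h3 : ((-1) ^ n * n : ℚ) ≠ 0 := by
      refine mul_ne_zero (pow_ne_zero _ (by norm_num)) ?_
      exact_mod_cast (by omega : n ≠ 0)
    have h4 := Submodule.smul_mem _ (((-1) ^ n * n : ℚ)⁻¹) h2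
    rwa [smul_smul, inv_mul_cancel₀ h3, one_smul] at h4
  · intro h n hn
    have h1 := hB.hasChernClasses.newton E n hn
    obtain ⟨m, rfl⟩ : ∃ m, n = m + 1 := ⟨n - 1, by omega⟩
    rw [Finset.sum_range_succ', hB.hasChernClasses.chern_zero, pow_zero, one_mul, Nat.sub_zero,
      TheoryData.mul, one_mul] at h1
    have h2 : (((m + 1).factorial : ℕ) : ℚ) • B.ch E (m + 1) ∈ I X (m + 1 : ℕ) := by
      have e : (((m + 1).factorial : ℕ) : ℚ) • B.ch E (m + 1) =
          -(∑ j ∈ Finset.range m, ((-1) ^ (j + 1) * (m + 1 - (j + 1)).factorial : ℚ) •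
            C.mul (B.chern E (j + 1)) (B.ch E (m + 1 - (j + 1))) +
            ((-1) ^ (m + 1) * (m + 1 : ℕ) : ℚ) • B.chern E (m + 1)) := by
        rw [eq_neg_iff_add_eq_zero, ← h1]
        abel
      rw [e]
      refine Submodule.neg_mem _ (Submodule.add_mem _ (Submodule.sum_mem _ fun j hj =>
        Submodule.smul_mem _ _ ?_) (Submodule.smul_mem _ _ (h (m + 1) hn)))
      rw [Finset.mem_range] at hj
      refine hI.congr ?_ (hI.mul_mem (h (j + 1) (by omega)) (hB.hasChernClasses.ch_mem E _))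
      rw [Nat.cast_sub (by omega)]; ring
    have h3 : (((m + 1).factorial : ℕ) : ℚ) ≠ 0 := by
      exact_mod_cast Nat.factorial_ne_zero _
    have h4 := Submodule.smul_mem _ ((((m + 1).factorial : ℕ) : ℚ)⁻¹) h2
    rwa [smul_smul, inv_mul_cancel₀ h3, one_smul] at h4

/-- If the Chern classes of positive degree lie in `I`, so does `ζ^r`. -/
lemma zeta_mem_of {I : Family C} (hI : IsAdequate C I) (E : B.Bun X) (hr : 1 ≤ B.rk E)
    (h : ∀ n : ℕ, 1 ≤ n → B.chern E n ∈ I X n) : B.zeta E ^ B.rk E ∈ I (B.proj E) (B.rk E) := by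
  have h1 := hB.hasProjectiveBundles.relation E hr
  rw [Finset.sum_range_succ', hB.hasChernClasses.chern_zero, Nat.sub_zero, TheoryData.up, map_one,
    TheoryData.mul, one_mul, add_comm] at h1
  rw [eq_neg_of_add_eq_zero_left h1]
  refine Submodule.neg_mem _ (Submodule.sum_mem _ fun j hj => ?_)
  rw [Finset.mem_range] at hj
  refine hI.congr ?_ (hI.mul_mem (hI.pull_mem (B.pr E) (h (j + 1) (by omega)))
    (pow_deg (hB.hasProjectiveBundles.zeta_mem E hr) _))
  rw [Nat.cast_sub (by omega)]; push_cast; ring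

/-- If `ζ^r` lies in `I`, so do the Chern classes of positive degree. -/
lemma chern_mem_of {I : Family C} (hI : IsAdequate C I) (E : B.Bun X)
    (h : 1 ≤ B.rk E → B.zeta E ^ B.rk E ∈ I (B.proj E) (B.rk E)) (n : ℕ) (hn : 1 ≤ n) :
    B.chern E n ∈ I X n := by
  by_cases hnr : B.rk E < n
  · rw [hB.hasChernClasses.chern_top E n hnr]
    exact Submodule.zero_mem _
  push Not at hnr
  have hr : 1 ≤ B.rk E := hn.trans hnr
  have hz := hB.hasProjectiveBundles.zeta_mem E hr
  have hdim := hB.hasProjectiveBundles.dim_proj E hr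
  have h1 := congrArg (fun z => C.push (B.pr E) (z * B.zeta E ^ (n - 1)))
    (hB.hasProjectiveBundles.relation E hr)
  simp only [zero_mul, map_zero, Finset.sum_mul, map_sum] at h1
  have h2 : ∀ j, C.push (B.pr E) (C.mul (C.up (B.pr E) (B.chern E j)) (B.zeta E ^ (B.rk E - j)) *
      B.zeta E ^ (n - 1)) =
      B.chern E j * C.push (B.pr E) (B.zeta E ^ (B.rk E - j + (n - 1))) := by
    intro j
    rw [TheoryData.mul, TheoryData.up, mul_assoc, ← pow_add, C.proj_left]
  rw [Finset.sum_congr rfl fun j _ => h2 j] at h1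
  have hdeg : ∀ j : ℕ, C.push (B.pr E) (B.zeta E ^ j) ∈ C.gr X ((j : ℤ) - (B.rk E - 1)) := by
    intro j
    have h3 := C.push_mem (B.pr E) (pow_deg hz j)
    have e : (j : ℤ) + 1 * ((X.dim : ℤ) - (B.proj E).dim) = (j : ℤ) - (B.rk E - 1) := by
      have : ((B.proj E).dim : ℤ) + 1 = X.dim + B.rk E := by exact_mod_cast hdim
      linarith
    rwa [e] at h3
  rw [← Finset.add_sum_erase _ _ (Finset.mem_range.2 (by omega : n < B.rk E + 1))] at h1
  have e1 : B.rk E - n + (n - 1) = B.rk E - 1 := by omega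
  have h4 := hB.hasProjectiveBundles.push_zeta E hr
  rw [TheoryData.down] at h4
  rw [e1, h4, mul_one] at h1
  rw [eq_neg_of_add_eq_zero_left h1]
  refine Submodule.neg_mem _ (Submodule.sum_mem _ fun j hj => ?_)
  rw [Finset.mem_erase, Finset.mem_range] at hj
  rcases lt_or_gt_of_ne hj.1 with h5 | h5
  · -- `j < n`
    have h6 : B.zeta E ^ (B.rk E - j + (n - 1)) ∈ I (B.proj E) ((B.rk E - j + (n - 1) : ℕ) : ℤ) :=
      pow_mem_of_le hI hz (by omega) (h hr)
    have h7 := hI.mul_mem' (hB.hasChernClasses.chern_mem E j) (hI.push_mem (B.pr E) h6)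
    refine hI.congr ?_ h7
    have e2 : ((B.rk E - j + (n - 1) : ℕ) : ℤ) = B.rk E - j + (n - 1) := by
      have : j ≤ B.rk E := by omega
      push_cast [Nat.cast_sub this, Nat.cast_sub hn]
      ring
    rw [e2]
    have : ((B.proj E).dim : ℤ) + 1 = X.dim + B.rk E := by exact_mod_cast hdim
    linarith
  · -- `j > n`
    have h6 := hdeg (B.rk E - j + (n - 1))
    rw [C.gr_neg _ _ (by
      have e2 : ((B.rk E - j + (n - 1) : ℕ) : ℤ) = B.rk E - j + (n - 1) := by
        have : j ≤ B.rk E := by omega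
        push_cast [Nat.cast_sub this, Nat.cast_sub hn]
        ring
      rw [e2]
      have : (n : ℤ) < j := by exact_mod_cast h5
      linarith), Submodule.mem_bot] at h6
    rw [h6, mul_zero]
    exact Submodule.zero_mem _

/-- A class of positive codimension equivalent to zero is controlled by a vector bundle. -/
lemma exists_bundle {J : Family C} (hJ : IsAdequate C J) {i : ℕ} (hi : 1 ≤ i) {a : C.A X}
    (ha : a ∈ J X i) : ∃ G : B.Bun X, Triv J G ∧
      ∀ I : Family C, IsAdequate C I → Triv I G → a ∈ I X i := by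
  obtain ⟨E, F, N, hN, hE⟩ := hB.hasOperations.generate i a (hJ.le_gr _ _ ha)
  obtain ⟨L, Q, M, hL, hQ⟩ := hB.hasOperations.exists_kernel F
  obtain ⟨G₁, hG₁⟩ := hB.hasOperations.exists_sum E Q
  obtain ⟨G, hG⟩ := hB.hasOperations.exists_twist G₁ L hL
  have hL0 : B.ch L 0 = 1 := by rw [hB.hasChernClasses.ch_zero, hL, Nat.cast_one, one_smul]
  have key : ∀ n, ∑ j ∈ Finset.range (n + 1), B.ch G j * B.ch L (n - j) =
      (M : ℚ) • B.ch L n + if n = i then (N : ℚ) • a else 0 := by
    intro n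
    have h1 := hG n
    rw [hG₁, hE] at h1
    rw [← hQ]
    have h2 : ∑ j ∈ Finset.range (n + 1), B.ch G j * B.ch L (n - j) =
        ∑ j ∈ Finset.range (n + 1), C.mul (B.ch G j) (B.ch L (n - j)) := rfl
    rw [h2, ← h1]
    abel
  have hG0 : B.ch G 0 = (M : ℚ) • 1 := by
    have h1 := key 0
    rw [Finset.sum_range_one, Nat.sub_zero, hL0, mul_one, if_neg (by omega), add_zero] at h1
    exact h1
  -- the relation in degree `n ≥ 1`
  have key2 : ∀ n, ∑ j ∈ Finset.range (n + 1), B.ch G (j + 1) * B.ch L (n - j) =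
      if n + 1 = i then (N : ℚ) • a else 0 := by
    intro n
    have h1 := key (n + 1)
    rw [Finset.sum_range_succ', hG0, smul_mul_assoc, one_mul, Nat.sub_zero, add_comm] at h1
    have h2 := add_left_cancel h1
    rw [← h2]
    refine Finset.sum_congr rfl fun j hj => ?_
    rw [Nat.add_sub_add_right]
  refine ⟨G, ?_, ?_⟩
  · intro n hn
    induction n using Nat.strong_induction_on with
    | _ n ih =>
      obtain ⟨m, rfl⟩ : ∃ m, n = m + 1 := ⟨n - 1, by omega⟩
      have h1 := key2 m
      rw [Finset.sum_range_succ, Nat.sub_self, hL0, mul_one, add_comm] at h1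
      rw [eq_sub_of_add_eq h1]
      refine Submodule.sub_mem _ ?_ (Submodule.sum_mem _ fun j hj => ?_)
      · split_ifs with h2
        · rw [h2]
          exact Submodule.smul_mem _ _ ha
        · exact Submodule.zero_mem _
      · rw [Finset.mem_range] at hj
        refine hJ.congr ?_ (hJ.mul_mem (ih (j + 1) (by omega) (by omega))
          (hB.hasChernClasses.ch_mem L (m - j)))
        rw [Nat.cast_sub hj.le]; push_cast; ring
  · intro I hI hGI
    obtain ⟨m, rfl⟩ : ∃ m, i = m + 1 := ⟨i - 1, by omega⟩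
    have h1 := key2 m
    rw [if_pos rfl] at h1
    have h2 : (N : ℚ) • a ∈ I X (m + 1 : ℕ) := by
      rw [← h1]
      refine Submodule.sum_mem _ fun j hj => ?_
      rw [Finset.mem_range] at hj
      refine hI.congr ?_ (hI.mul_mem (hGI (j + 1) (by omega))
        (hB.hasChernClasses.ch_mem L (m - j)))
      rw [Nat.cast_sub (by omega)]; push_cast; ring
    have h3 := Submodule.smul_mem _ ((N : ℚ)⁻¹) h2
    rwa [smul_smul, inv_mul_cancel₀ (by exact_mod_cast hN), one_smul] at h3

/-- Adequate relations are determined by the powers of divisor classes which are equivalent to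
zero. -/
theorem le_of_powers {I J : Family C} (hI : IsAdequate C I) (hJ : IsAdequate C J)
    (h : ∀ (X : 𝒱.Obj) (D : C.A X) (n : ℕ), C.Deg 1 D → D ^ n ∈ J X n → D ^ n ∈ I X n)
    (X : 𝒱.Obj) (i : ℤ) : J X i ≤ I X i := by
  intro a ha
  rcases lt_trichotomy i 0 with hi | hi | hi
  · have h1 := hJ.le_gr _ _ ha
    rw [C.gr_neg _ _ hi, Submodule.mem_bot] at h1
    rw [h1]
    exact Submodule.zero_mem _
  · subst hi
    obtain ⟨q, rfl⟩ := hC.gr_zero X a (hJ.le_gr _ _ ha)
    by_cases hq : q = 0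
    · rw [hq, zero_smul]
      exact Submodule.zero_mem _
    · have h1 := Submodule.smul_mem _ q⁻¹ ha
      rw [smul_smul, inv_mul_cancel₀ hq, one_smul] at h1
      refine Submodule.smul_mem _ _ ?_
      have h2 := h X 0 0 (Submodule.zero_mem _) (by rw [pow_zero]; exact h1)
      rw [pow_zero] at h2
      exact h2
  · obtain ⟨n, rfl⟩ := Int.eq_ofNat_of_zero_le hi.le
    obtain ⟨G, hG, h1⟩ := exists_bundle (B := B) hJ (by exact_mod_cast hi) ha
    apply h1 I hI
    rw [triv_iff hJ] at hG
    rw [triv_iff hI]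
    exact chern_mem_of hI G fun hr => h _ _ _ (hB.hasProjectiveBundles.zeta_mem G hr)
      (zeta_mem_of hJ G hr hG)

variable {K : Type w} [Field K] {H : WeilTheoryData.{u, v, w} C K} [hH : IsWeilProj H]

include hH

omit hB in
lemma smash_of_nonpos {i : ℤ} (hi : i ≤ 0) {a : C.A X} (ha : C.Deg i a) (h : H.cl a = 0) :
    SmashNilpotent C a := by
  have h0 : a = 0 := by
    rcases hi.lt_or_eq with h1 | h1
    · have h2 : a ∈ C.gr X i := ha
      rwa [C.gr_neg _ _ h1, Submodule.mem_bot] at h2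
    · subst h1
      obtain ⟨q, rfl⟩ := hC.gr_zero X a ha
      by_contra hq
      have hq' : q ≠ 0 := by
        rintro rfl
        exact hq (zero_smul _ _)
      have h1 := cl_smul (H := H) q⁻¹ h
      rw [smul_smul, inv_mul_cancel₀ hq', one_smul, map_one] at h1
      exact hH.one_ne_zero X h1
  exact ⟨0, h0⟩

omit hC in
lemma chernTrivial_iff [IsChowProj C] (E : B.Bun X) :
    ChernTrivial H B E ↔ ∀ n : ℕ, 1 ≤ n → B.chern E n ∈ homFam H X n :=
  ⟨fun h n hn => ⟨hB.hasChernClasses.chern_mem E n, h n hn⟩, fun h n hn => (h n hn).2⟩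

/-- Voevodsky's conjecture for `X` in terms of Chern classes. -/
theorem smash_iff_chern (X : 𝒱.Obj) : SmashConjecture H X ↔ ∀ E : B.Bun X, ChernTrivial H B E →
    ∀ j : ℕ, 1 ≤ j → SmashNilpotent C (B.chern E j) := by
  constructor
  · intro h E hE j hj
    exact h j _ (hB.hasChernClasses.chern_mem E j) (hE j hj)
  · intro h i a ha h0
    rcases le_or_gt i 0 with hi | hi
    · exact smash_of_nonpos hi ha h0
    · obtain ⟨n, rfl⟩ := Int.eq_ofNat_of_zero_le hi.le
      obtain ⟨G, hG, h1⟩ := exists_bundle (B := B) (isAdequate_homFam H)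
        (by exact_mod_cast hi : 1 ≤ n) (⟨ha, h0⟩ : a ∈ homFam H X n)
      rw [triv_iff (isAdequate_homFam H), ← chernTrivial_iff] at hG
      rw [smashNilpotent_iff ha]
      intro P hP
      apply h1 P hP.toIsAdequate
      rw [triv_iff hP.toIsAdequate]
      intro j hj
      exact (smashNilpotent_iff (hB.hasChernClasses.chern_mem G j)).1 (h G hG j hj) P hP

/-- Voevodsky's conjecture for `X` in terms of projective bundles. -/
theorem smash_iff_zeta (X : 𝒱.Obj) : SmashConjecture H X ↔ ∀ E : B.Bun X, ChernTrivial H B E →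
    1 ≤ B.rk E → SmashNilpotent C (B.zeta E ^ B.rk E) := by
  rw [smash_iff_chern (B := B)]
  constructor
  · intro h E hE hr
    rw [smashNilpotent_iff (pow_deg (hB.hasProjectiveBundles.zeta_mem E hr) _)]
    intro P hP
    refine zeta_mem_of hP.toIsAdequate E hr fun j hj => ?_
    exact (smashNilpotent_iff (hB.hasChernClasses.chern_mem E j)).1 (h E hE j hj) P hP
  · intro h E hE j hj
    rw [smashNilpotent_iff (hB.hasChernClasses.chern_mem E j)]
    intro P hP
    refine chern_mem_of hP.toIsAdequate E (fun hr => ?_) j hj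
    exact (smashNilpotent_iff (pow_deg (hB.hasProjectiveBundles.zeta_mem E hr) _)).1 (h E hE hr)
      P hP

end Pool.Agent.K1H14.VD
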