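import Pool.Agent.TH829.Prime.Defs

/-!
# Vector bundles, Chern classes and projective bundles: definitions
-/

open CategoryTheory AlgebraicGeometry

universe u v w t

namespace Pool.Agent.K1H14.VD

open Pool.Agent.H914 Pool.Agent.H914.VarClass Pool.Agent.H914.VarClass.Obj Pool.Agent.W492.BB
  Pool.Agent.W550.Corr Pool.Agent.TH133 Pool.Agent.TH829.Prime

variable {k : Type u} [Field k] {𝒱 : VarClass k}

/-- The data of the vector bundles on the varieties of the class `𝒱`, of their Chern classes and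
of their projective bundles. -/
structure BundleData (C : TheoryData.{u, v, 0} 𝒱 ℚ) where
  /-- the vector bundles on `X` -/
  Bun : 𝒱.Obj → Type t
  /-- the rank of `E` -/
  rk : ∀ {X : 𝒱.Obj}, Bun X → ℕ
  /-- the Chern class `c_j(E)` -/
  chern : ∀ {X : 𝒱.Obj}, Bun X → ℕ → C.A X
  /-- the component `ch_j(E)` of the Chern character -/
  ch : ∀ {X : 𝒱.Obj}, Bun X → ℕ → C.A X
  /-- the projective bundle `ℙ(E)` of the lines in `E` -/
  proj : ∀ {X : 𝒱.Obj}, Bun X → 𝒱.Obj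
  /-- the projection `ℙ(E) ⟶ X` -/
  pr : ∀ {X : 𝒱.Obj} (E : Bun X), proj E ⟶ X
  /-- the class `ζ_E = c_1(O(1))` on `ℙ(E)` -/
  zeta : ∀ {X : 𝒱.Obj} (E : Bun X), C.A (proj E)

variable {C : TheoryData.{u, v, 0} 𝒱 ℚ}

/-- The Chern classes and the Chern character: `c_j(E)`, `ch_j(E)` are classes of codimension `j`,
`c_0(E) = 1`, `c_j(E) = 0` for `j > rk E`, `ch_0(E) = rk E`, and the identities of Newton between the
elementary symmetric functions `c_j(E)` and the power sums `p_j = j! ch_j(E)` of the Chern roots: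
`p_n - c_1 p_{n-1} + c_2 p_{n-2} - ⋯ + (-1)^(n-1) c_{n-1} p_1 + (-1)^n n c_n = 0`. -/
structure BundleData.HasChernClasses (B : BundleData.{u, v, t} C) : Prop where
  chern_mem : ∀ {X : 𝒱.Obj} (E : B.Bun X) (j : ℕ), C.Deg j (B.chern E j)
  ch_mem : ∀ {X : 𝒱.Obj} (E : B.Bun X) (j : ℕ), C.Deg j (B.ch E j)
  chern_zero : ∀ {X : 𝒱.Obj} (E : B.Bun X), B.chern E 0 = 1
  chern_top : ∀ {X : 𝒱.Obj} (E : B.Bun X) (j : ℕ), B.rk E < j → B.chern E j = 0
  ch_zero : ∀ {X : 𝒱.Obj} (E : B.Bun X), B.ch E 0 = (B.rk E : ℚ) • (1 : C.A X)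
  newton : ∀ {X : 𝒱.Obj} (E : B.Bun X) (n : ℕ), 1 ≤ n →
    ∑ j ∈ Finset.range n, ((-1) ^ j * (n - j).factorial : ℚ) •
      C.mul (B.chern E j) (B.ch E (n - j)) + ((-1) ^ n * n : ℚ) • B.chern E n = 0

/-- Operations with vector bundles:

* the direct sum `G = E ⊕ F` has `ch(G) = ch(E) + ch(F)`;
* for a line bundle `L`, the bundle `G = E ⊗ L^(-1)` has `ch(E) = ch(G) ch(L)`;
* `E` is a quotient of a direct sum of `N` copies of a line bundle `L`, with kernel a vector
  bundle `Q`, so that `ch(E) + ch(Q) = N ch(L)`;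
* every class is, up to a positive integral multiple, the difference of the Chern characters of two
  vector bundles (`K_0(X) ⊗ ℚ → CH(X)` is surjective). -/
structure BundleData.HasOperations (B : BundleData.{u, v, t} C) : Prop where
  exists_sum : ∀ {X : 𝒱.Obj} (E F : B.Bun X), ∃ G : B.Bun X, ∀ j, B.ch G j = B.ch E j + B.ch F j
  exists_twist : ∀ {X : 𝒱.Obj} (E L : B.Bun X), B.rk L = 1 → ∃ G : B.Bun X, ∀ n,
    B.ch E n = ∑ j ∈ Finset.range (n + 1), C.mul (B.ch G j) (B.ch L (n - j))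
  exists_kernel : ∀ {X : 𝒱.Obj} (E : B.Bun X), ∃ (L Q : B.Bun X) (N : ℕ), B.rk L = 1 ∧
    ∀ j, B.ch E j + B.ch Q j = (N : ℚ) • B.ch L j
  generate : ∀ {X : 𝒱.Obj} (i : ℕ) (a : C.A X), C.Deg i a → ∃ (E F : B.Bun X) (N : ℕ), N ≠ 0 ∧
    ∀ j, B.ch E j = B.ch F j + if j = i then (N : ℚ) • a else 0

/-- Projective bundles: for a vector bundle `E` of rank `r ≥ 1` on `X`, the variety `ℙ(E)` has
dimension `dim X + r - 1`, the push-forward of `ζ_E^(r-1)` to `X` is the fundamental class, and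
`∑_j c_j(E) ζ_E^(r-j) = 0`. -/
structure BundleData.HasProjectiveBundles (B : BundleData.{u, v, t} C) : Prop where
  dim_proj : ∀ {X : 𝒱.Obj} (E : B.Bun X), 1 ≤ B.rk E → (B.proj E).dim + 1 = X.dim + B.rk E
  zeta_mem : ∀ {X : 𝒱.Obj} (E : B.Bun X), 1 ≤ B.rk E → C.Deg 1 (B.zeta E)
  push_zeta : ∀ {X : 𝒱.Obj} (E : B.Bun X), 1 ≤ B.rk E →
    C.down (B.pr E) (B.zeta E ^ (B.rk E - 1)) = 1
  relation : ∀ {X : 𝒱.Obj} (E : B.Bun X), 1 ≤ B.rk E → ∑ j ∈ Finset.range (B.rk E + 1),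
    C.mul (C.up (B.pr E) (B.chern E j)) (B.zeta E ^ (B.rk E - j)) = 0

/-- The formal properties of the vector bundles on the smooth projective varieties of the class
`𝒱`, of their Chern classes with rational coefficients and of their projective bundles. -/
class IsBundles (B : BundleData.{u, v, t} C) : Prop where
  hasChernClasses : B.HasChernClasses
  hasOperations : B.HasOperations
  hasProjectiveBundles : B.HasProjectiveBundles

/-- The divisor class `D_1 + ⋯ + D_{m+1}` on `X^(m+1)`, where `D_i` is the pull-back of `D` under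
the `i`-th projection. -/
noncomputable def sumDiv (C : TheoryData.{u, v, 0} 𝒱 ℚ) {X : 𝒱.Obj} (D : C.A X) :
    ∀ m : ℕ, C.A (powObj X m)
  | 0 => D
  | m + 1 => C.up (fst X (powObj X m)) D + C.up (snd X (powObj X m)) (sumDiv C D m)

/-- The class `D^n` is smash-nilpotent. -/
def PowerSmash (C : TheoryData.{u, v, 0} 𝒱 ℚ) {X : 𝒱.Obj} (D : C.A X) (n : ℕ) : Prop :=
  SmashNilpotent C (D ^ n)

/-- There is `N ≥ 1` such that the class `(D_1 + ⋯ + D_N)^(n N)` on `X^N` vanishes. -/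
def PowerVanishes (C : TheoryData.{u, v, 0} 𝒱 ℚ) {X : 𝒱.Obj} (D : C.A X) (n : ℕ) : Prop :=
  ∃ m : ℕ, sumDiv C D m ^ (n * (m + 1)) = 0

/-- There is `c` such that, for all `N ≥ 1`, the class `(D_1 + ⋯ + D_N)^(n N + c)` on `X^N`
vanishes. -/
def PowerBounded (C : TheoryData.{u, v, 0} 𝒱 ℚ) {X : 𝒱.Obj} (D : C.A X) (n : ℕ) : Prop :=
  ∃ c : ℕ, ∀ m : ℕ, sumDiv C D m ^ (n * (m + 1) + c) = 0

/-- The powers `D^n` of divisor classes which are equivalent to zero for `J` are equivalent to zero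
for `I`. -/
def PowersLe (I J : Family C) : Prop :=
  ∀ (X : 𝒱.Obj) (D : C.A X) (n : ℕ), C.Deg 1 D → D ^ n ∈ J X n → D ^ n ∈ I X n

/-- The classes which are equivalent to zero for `J` are equivalent to zero for `I`. -/
def Finer (I J : Family C) : Prop := ∀ (X : 𝒱.Obj) (i : ℤ) (a : C.A X), a ∈ J X i → a ∈ I X i

variable {K : Type w} [Field K] (H : WeilTheoryData.{u, v, w} C K)

/-- Voevodsky's conjecture for `X`: homologically trivial classes on `X` are smash-nilpotent. -/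
def SmashConjecture (X : 𝒱.Obj) : Prop :=
  ∀ (i : ℤ) (a : C.A X), C.Deg i a → H.cl a = 0 → SmashNilpotent C a

/-- The Chern classes `c_j(E)`, `j ≥ 1`, are homologically trivial. -/
def ChernTrivial (B : BundleData.{u, v, t} C) {X : 𝒱.Obj} (E : B.Bun X) : Prop :=
  ∀ j : ℕ, 1 ≤ j → H.cl (B.chern E j) = 0

/-- For the vector bundles `E` on `X` with homologically trivial Chern classes `c_j(E)`, `j ≥ 1`,
these classes are smash-nilpotent. -/
def ChernCriterion (B : BundleData.{u, v, t} C) (X : 𝒱.Obj) : Prop :=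
  ∀ E : B.Bun X, ChernTrivial H B E → ∀ j : ℕ, 1 ≤ j → SmashNilpotent C (B.chern E j)

/-- For the vector bundles `E` on `X` of rank `r ≥ 1` with homologically trivial Chern classes
`c_j(E)`, `j ≥ 1`, there is `N ≥ 1` such that `(ζ_1 + ⋯ + ζ_N)^(r N) = 0` on `ℙ(E)^N`, where
`ζ = c_1(O(1))`. -/
def BundleCriterion (B : BundleData.{u, v, t} C) (X : 𝒱.Obj) : Prop :=
  ∀ E : B.Bun X, ChernTrivial H B E → 1 ≤ B.rk E → PowerVanishes C (B.zeta E) (B.rk E)

/-- For all varieties `X` of the class, all `D ∈ CH^1(X)` and all `n` such that `D^n` is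
homologically trivial, there is `N ≥ 1` such that `(D_1 + ⋯ + D_N)^(n N) = 0` on `X^N`. -/
def DivisorCriterion : Prop :=
  ∀ (X : 𝒱.Obj) (D : C.A X) (n : ℕ), C.Deg 1 D → H.cl (D ^ n) = 0 → PowerVanishes C D n

/-- The same statement, only for the varieties `X` of dimension `2 n`. -/
def MiddleCriterion : Prop :=
  ∀ (X : 𝒱.Obj) (D : C.A X) (n : ℕ), X.dim = 2 * n → C.Deg 1 D → H.cl (D ^ n) = 0 →
    PowerVanishes C D n

end Pool.Agent.K1H14.VD
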