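import Pool.Agent.K1H14.VD.Gen
import Pool.Agent.K1H14.LD.Van

/-!
# Exterior powers of powers of divisors
-/

open CategoryTheory AlgebraicGeometry

universe u v w t

namespace Pool.Agent.K1H14.VD

open Pool.Agent.H914 Pool.Agent.H914.VarClass Pool.Agent.H914.VarClass.Obj Pool.Agent.W492.BB
  Pool.Agent.W550.Corr Pool.Agent.TH133 Pool.Agent.TH829.Prime Pool.Agent.TH829.Kim
  Pool.Agent.K1H14.LD Pool.Agent.Y110

set_option linter.unusedSectionVars false

variable {k : Type u} [Field k] {𝒱 : VarClass k} {C : TheoryData.{u, v, 0} 𝒱 ℚ}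
  [hC : IsChowProj C] {X Y W : 𝒱.Obj}

include hC

/-- `a` is the largest exponent with `x^a` not in `P`. -/
def Ht (P : Family C) (x : C.A X) (a : ℕ) : Prop :=
  x ^ a ∉ P X a ∧ x ^ (a + 1) ∈ P X (a + 1 : ℕ)

lemma pow_top {x : C.A X} (hx : C.Deg 1 x) {n : ℕ} (hn : X.dim < n) : x ^ n = 0 :=
  hC.gr_top X n _ (pow_deg hx n) (by exact_mod_cast hn)

lemma exists_ht {P : Family C} (hP : IsPrime C P) {x : C.A X} (hx : C.Deg 1 x) {n : ℕ}
    (h : x ^ n ∉ P X n) : ∃ e, n ≤ e ∧ Ht P x e := by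
  classical
  have h1 : ∃ m : ℕ, x ^ m ∈ P X m := ⟨X.dim + 1, by
    rw [pow_top hx (Nat.lt_succ_self _)]
    exact Submodule.zero_mem _⟩
  have hm : x ^ (Nat.find h1) ∈ P X (Nat.find h1) := Nat.find_spec h1
  have hnm : n < Nat.find h1 := by
    by_contra hcon
    push Not at hcon
    exact h (pow_mem_of_le hP.toIsAdequate hx hcon hm)
  refine ⟨Nat.find h1 - 1, by omega, Nat.find_min h1 (by omega), ?_⟩
  rw [Nat.sub_add_cancel (by omega)]
  exact hm

/-- The terms of the binomial expansion outside the critical one. -/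
lemma term_mem {I : Family C} (hI : IsAdequate C I) {x y : C.A X} (hx : C.Deg 1 x)
    (hy : C.Deg 1 y) {a b m n : ℕ} (hmn : m ≤ n) (h1 : x ^ a ∈ I X a)
    (h2 : y ^ b ∈ I X b) (h : a ≤ m ∨ b ≤ n - m) (q : ℚ) :
    q • (x ^ m * y ^ (n - m)) ∈ I X n := by
  refine Submodule.smul_mem _ _ ?_
  have e : (m : ℤ) + (n - m : ℕ) = n := by
    rw [Nat.cast_sub hmn]; ring
  rcases h with h | h
  · exact hI.congr e (hI.mul_mem (pow_mem_of_le hI hx h h1) (pow_deg hy _))
  · exact hI.congr e (hI.mul_mem' (pow_deg hx _) (pow_mem_of_le hI hy h h2))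

lemma add_pow' (x y : C.A X) (n : ℕ) : (x + y) ^ n =
    ∑ m ∈ Finset.range (n + 1), ((n.choose m : ℕ) : ℚ) • (x ^ m * y ^ (n - m)) := by
  have hxy : Commute x y := ch_comm C x y
  rw [hxy.add_pow n]
  refine Finset.sum_congr rfl fun m _ => ?_
  rw [Nat.cast_smul_eq_nsmul, nsmul_eq_mul, ← Nat.cast_comm]

/-- Sums of powers. -/
lemma add_pow_mem {I : Family C} (hI : IsAdequate C I) {x y : C.A X} (hx : C.Deg 1 x)
    (hy : C.Deg 1 y) {a b : ℕ} (h1 : x ^ a ∈ I X a) (h2 : y ^ (b + 1) ∈ I X (b + 1 : ℕ)) :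
    (x + y) ^ (a + b) ∈ I X (a + b : ℕ) := by
  rw [add_pow']
  refine Submodule.sum_mem _ fun m hm => ?_
  rw [Finset.mem_range] at hm
  exact term_mem hI hx hy (by omega) h1 h2 (by omega) _

lemma Ht.add {P : Family C} (hP : IsPrime C P) {x : C.A X} {y : C.A Y} (hx : C.Deg 1 x)
    (hy : C.Deg 1 y) {a b : ℕ} (h1 : Ht P x a) (h2 : Ht P y b) :
    Ht P (C.pull (fst X Y) x + C.pull (snd X Y) y) (a + b) := by
  have hI := hP.toIsAdequate
  have hu : C.Deg 1 (C.pull (fst X Y) x) := C.pull_mem _ hx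
  have hv : C.Deg 1 (C.pull (snd X Y) y) := C.pull_mem _ hy
  have h3 : C.pull (fst X Y) x ^ (a + 1) ∈ P (X.prod Y) (a + 1 : ℕ) := by
    rw [← map_pow]
    exact hI.pull_mem _ h1.2
  have h4 : C.pull (snd X Y) y ^ (b + 1) ∈ P (X.prod Y) (b + 1 : ℕ) := by
    rw [← map_pow]
    exact hI.pull_mem _ h2.2
  constructor
  · intro h
    rw [add_pow', ← Finset.add_sum_erase _ _ (Finset.mem_range.2 (by omega : a < a + b + 1))] at h
    have h5 : ∑ m ∈ (Finset.range (a + b + 1)).erase a, (((a + b).choose m : ℕ) : ℚ) •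
        (C.pull (fst X Y) x ^ m * C.pull (snd X Y) y ^ (a + b - m)) ∈
        P (X.prod Y) (a + b : ℕ) := by
      refine Submodule.sum_mem _ fun m hm => ?_
      rw [Finset.mem_erase, Finset.mem_range] at hm
      exact term_mem hI hu hv (by omega) h3 h4 (by omega) _
    have h6 := (Submodule.add_mem_iff_left _ h5).1 h
    have h7 : (((a + b).choose a : ℕ) : ℚ) ≠ 0 := by
      exact_mod_cast (Nat.choose_pos (by omega : a ≤ a + b)).ne'
    have h8 := Submodule.smul_mem _ ((((a + b).choose a : ℕ) : ℚ)⁻¹) h6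
    rw [smul_smul, inv_mul_cancel₀ h7, one_smul, Nat.add_sub_cancel_left, ← map_pow,
      ← map_pow] at h8
    rcases hP.prime (pow_deg hx a) (pow_deg hy b) (hI.congr (by push_cast; ring) h8) with h9 | h9
    · exact h1.1 h9
    · exact h2.1 h9
  · have h5 := add_pow_mem hI hu hv h3 h4
    have e : a + 1 + b = a + b + 1 := by ring
    rwa [e] at h5

lemma sumDiv_deg {D : C.A X} (hD : C.Deg 1 D) (m : ℕ) : C.Deg 1 (sumDiv C D m) := by
  induction m with
  | zero => exact hD
  | succ m ih => exact Submodule.add_mem _ (C.pull_mem _ hD) (C.pull_mem _ ih)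

lemma ht_sumDiv {P : Family C} (hP : IsPrime C P) {D : C.A X} (hD : C.Deg 1 D) {e : ℕ}
    (h : Ht P D e) (m : ℕ) : Ht P (sumDiv C D m) (e * (m + 1)) := by
  induction m with
  | zero =>
    rw [Nat.zero_add, mul_one]
    exact h
  | succ m ih =>
    have h1 := Ht.add hP hD (sumDiv_deg hD m) h ih
    have e1 : e + e * (m + 1) = e * (m + 1 + 1) := by ring
    rw [e1] at h1
    exact h1

/-- If `(D_1 + ⋯ + D_{m+1})^(n(m+1))` vanishes then `D^n` is smash-nilpotent. -/
theorem smash_of_sumDiv {D : C.A X} (hD : C.Deg 1 D) {n m : ℕ}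
    (h : sumDiv C D m ^ (n * (m + 1)) = 0) : SmashNilpotent C (D ^ n) := by
  rw [smashNilpotent_iff (pow_deg hD n)]
  intro P hP
  by_contra hn
  obtain ⟨e, hne, he⟩ := exists_ht hP hD hn
  apply (ht_sumDiv hP hD he m).1
  refine pow_mem_of_le hP.toIsAdequate (sumDiv_deg hD m) (Nat.mul_le_mul_right _ hne) ?_
  rw [h]
  exact Submodule.zero_mem _

omit hC in
lemma coord_zero (X : 𝒱.Obj) (m : ℕ) : coord X (m + 1) 0 = fst X (powObj X m) := rfl

omit hC in
lemma coord_succ (X : 𝒱.Obj) (m : ℕ) (i : Fin (m + 1)) :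
    coord X (m + 1) i.succ = snd X (powObj X m) ≫ coord X m i := rfl

lemma sumDiv_eq (D : C.A X) (m : ℕ) : sumDiv C D m = ∑ i, C.pull (coord X m i) D := by
  induction m with
  | zero =>
    rw [Fin.sum_univ_succ, Finset.univ_eq_empty, Finset.sum_empty, add_zero]
    exact (C.pull_id D).symm
  | succ m ih =>
    rw [Fin.sum_univ_succ, coord_zero]
    change C.pull _ D + C.pull _ (sumDiv C D m) = _
    rw [ih, map_sum]
    congr 1
    exact Finset.sum_congr rfl fun i _ => (C.pull_comp (snd X (powObj X m)) (coord X m i) D).symm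

lemma extPow_eq (a : C.A X) (m : ℕ) : extPow C a m = ∏ i, C.pull (coord X m i) a := by
  induction m with
  | zero =>
    rw [Fin.prod_univ_succ, Finset.univ_eq_empty, Finset.prod_empty, mul_one]
    exact (C.pull_id a).symm
  | succ m ih =>
    rw [Fin.prod_univ_succ, coord_zero]
    change C.pull _ a * C.pull _ (extPow C a m) = _
    rw [ih, map_prod]
    congr 1
    exact Finset.prod_congr rfl fun i _ => (C.pull_comp (snd X (powObj X m)) (coord X m i) a).symm

/-- Products of pull-backs of a smash-nilpotent class. -/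
lemma prod_eq_zero_of {a : C.A X} {M : ℕ} (h : extPow C a M = 0) (f : Fin (M + 1) → (W ⟶ X)) :
    ∏ i, C.pull (f i) a = 0 := by
  obtain ⟨g, hg⟩ := (isPow_coord X M).exists_lift W f
  have h1 := congrArg (C.pull g) h
  rw [extPow_eq, map_prod, map_zero] at h1
  rw [← h1]
  refine Finset.prod_congr rfl fun i _ => ?_
  rw [← hg i, C.pull_comp]

/-- If `D^(n+1)` is smash-nilpotent then the nilpotency exponent of `D_1 + ⋯ + D_{m+1}` is at most
`n (m + 1)` up to a constant. -/
theorem growth {D : C.A X} (hD : C.Deg 1 D) {n M : ℕ} (h : extPow C (D ^ (n + 1)) M = 0) (m : ℕ) :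
    sumDiv C D m ^ (n * (m + 1) + (M * X.dim + 1)) = 0 := by
  classical
  rw [sumDiv_eq, Finset.sum_pow_eq_sum_piAntidiag]
  refine Finset.sum_eq_zero fun κ hκ => ?_
  rw [Finset.mem_piAntidiag] at hκ
  obtain ⟨hκ, -⟩ := hκ
  suffices h1 : ∏ i, C.pull (coord X m i) D ^ κ i = 0 by rw [h1, mul_zero]
  by_cases h2 : ∃ i, X.dim < κ i
  · obtain ⟨i, hi⟩ := h2
    refine Finset.prod_eq_zero (Finset.mem_univ i) ?_
    rw [← map_pow, pow_top hD hi, map_zero]
  · push Not at h2
    set T : Finset (Fin (m + 1)) := Finset.univ.filter (fun i => n < κ i) with hT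
    have hcard : M + 1 ≤ T.card := by
      by_contra hcon
      push Not at hcon
      have h3 : ∑ i, κ i ≤ ∑ i, (n + if i ∈ T then X.dim else 0) := by
        refine Finset.sum_le_sum fun i _ => ?_
        by_cases hi : i ∈ T
        · rw [if_pos hi]
          exact (h2 i).trans (Nat.le_add_left _ _)
        · rw [if_neg hi, add_zero]
          rw [hT, Finset.mem_filter] at hi
          push Not at hi
          exact hi (Finset.mem_univ i)
      rw [Finset.sum_add_distrib, Finset.sum_const, Finset.card_univ, Fintype.card_fin,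
        Finset.sum_ite_mem, Finset.univ_inter, Finset.sum_const, smul_eq_mul, smul_eq_mul,
        hκ] at h3
      have h4 : T.card * X.dim ≤ M * X.dim := Nat.mul_le_mul_right _ (by omega)
      have h5 : (m + 1) * n = n * (m + 1) := mul_comm _ _
      omega
    obtain ⟨S, hST, hS⟩ := Finset.exists_subset_card_eq hcard
    let f : Fin (M + 1) ≃ S := (S.equivFinOfCardEq hS).symm
    have h3 : ∏ i ∈ S, C.pull (coord X m i) (D ^ (n + 1)) = 0 := by
      have h4 := prod_eq_zero_of h (fun l => coord X m (f l : Fin (m + 1)))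
      rw [← h4, ← Finset.prod_coe_sort S (fun i => C.pull (coord X m i) (D ^ (n + 1)))]
      exact (Fintype.prod_equiv f _ _ fun l => rfl).symm
    rw [← Finset.prod_sdiff (Finset.subset_univ S)]
    have h5 : ∏ i ∈ S, C.pull (coord X m i) D ^ κ i =
        (∏ i ∈ S, C.pull (coord X m i) D ^ (κ i - (n + 1))) *
          ∏ i ∈ S, C.pull (coord X m i) (D ^ (n + 1)) := by
      rw [← Finset.prod_mul_distrib]
      refine Finset.prod_congr rfl fun i hi => ?_
      have h6 : n < κ i := by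
        have := hST hi
        rw [hT, Finset.mem_filter] at this
        exact this.2
      rw [map_pow, ← pow_add]
      congr 1
      omega
    rw [h5, h3, mul_zero, mul_zero]

/-- The gap theorem for the nilpotency exponents of `D_1 + ⋯ + D_{m+1}`. -/
theorem smash_pow_iff {D : C.A X} (hD : C.Deg 1 D) (n : ℕ) :
    (SmashNilpotent C (D ^ (n + 1)) ↔ ∃ m, sumDiv C D m ^ ((n + 1) * (m + 1)) = 0) ∧
    (SmashNilpotent C (D ^ (n + 1)) ↔ ∃ c, ∀ m, sumDiv C D m ^ (n * (m + 1) + c) = 0) := by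
  have h1 : SmashNilpotent C (D ^ (n + 1)) → ∃ c, ∀ m, sumDiv C D m ^ (n * (m + 1) + c) = 0 := by
    rintro ⟨M, hM⟩
    exact ⟨_, fun m => growth hD hM m⟩
  have h2 : (∃ c, ∀ m, sumDiv C D m ^ (n * (m + 1) + c) = 0) →
      ∃ m, sumDiv C D m ^ ((n + 1) * (m + 1)) = 0 := by
    rintro ⟨c, hc⟩
    refine ⟨c, ?_⟩
    have e : (n + 1) * (c + 1) = n * (c + 1) + c + 1 := by ring
    rw [e, pow_succ, hc c, zero_mul]
  have h3 : (∃ m, sumDiv C D m ^ ((n + 1) * (m + 1)) = 0) → SmashNilpotent C (D ^ (n + 1)) := by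
    rintro ⟨m, hm⟩
    exact smash_of_sumDiv hD hm
  exact ⟨⟨fun h => h2 (h1 h), h3⟩, ⟨h1, fun h => h3 (h2 h)⟩⟩

/-! ### Reduction to the middle dimension -/

omit hC in
lemma dim_powObj (X : 𝒱.Obj) (m : ℕ) : (powObj X m).dim = (m + 1) * X.dim := by
  induction m with
  | zero => rw [zero_add, one_mul]; rfl
  | succ m ih =>
    change (X.prod (powObj X m)).dim = _
    rw [dim_prod, ih]; ring

lemma exists_ht_dim (Y : 𝒱.Obj) : ∃ h : C.A Y, C.Deg 1 h ∧ ∀ P, IsPrime C P → Ht P h Y.dim := by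
  obtain ⟨h, hd, q, hq, h1⟩ := hC.polarized Y
  refine ⟨h, hd, fun P hP => ⟨fun h2 => ?_, ?_⟩⟩
  · have h3 := hP.push_mem (snd Y Y) (hP.pull_mem (fst Y Y) h2)
    rw [h1] at h3
    have e : (Y.dim : ℤ) + ((Y.dim : ℤ) - (Y.prod Y).dim) = 0 := by
      rw [dim_prod]; push_cast; ring
    rw [e] at h3
    have h4 := Submodule.smul_mem _ q⁻¹ h3
    rw [smul_smul, inv_mul_cancel₀ hq, one_smul] at h4
    exact hP.one_notMem Y h4
  · rw [pow_top hd (Nat.lt_succ_self _)]
    exact Submodule.zero_mem _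

variable {B : BundleData.{u, v, t} C} [hB : IsBundles B] {K : Type w} [Field K]
  {H : WeilTheoryData.{u, v, w} C K} [hH : IsWeilProj H]

include hB hH

omit hB in
lemma pow_homFam {D : C.A X} (hD : C.Deg 1 D) (n : ℕ) : D ^ n ∈ homFam H X n ↔ H.cl (D ^ n) = 0 :=
  ⟨fun h => h.2, fun h => ⟨pow_deg hD n, h⟩⟩

/-- Voevodsky's conjecture in terms of powers of divisors. -/
theorem smash_iff_powers : (∀ X : 𝒱.Obj, SmashConjecture H X) ↔ ∀ (X : 𝒱.Obj) (D : C.A X) (n : ℕ),
    C.Deg 1 D → H.cl (D ^ n) = 0 → SmashNilpotent C (D ^ n) := by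
  constructor
  · intro h X D n hD h0
    exact h X n _ (pow_deg hD n) h0
  · intro h X i a ha h0
    rw [smashNilpotent_iff ha]
    intro P hP
    refine le_of_powers (B := B) hP.toIsAdequate (isAdequate_homFam H) ?_ X i ⟨ha, h0⟩
    intro Y D n hD h1
    exact (smashNilpotent_iff (pow_deg hD n)).1 (h Y D n hD h1.2) P hP

/-- Voevodsky's conjecture in terms of powers of divisors in the middle dimension. -/
theorem smash_iff_middle {T : 𝒱.Obj} (hT : T.dim = 1) : (∀ X : 𝒱.Obj, SmashConjecture H X) ↔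
    ∀ (X : 𝒱.Obj) (D : C.A X) (n : ℕ), X.dim = 2 * n → C.Deg 1 D → H.cl (D ^ n) = 0 →
      SmashNilpotent C (D ^ n) := by
  rw [smash_iff_powers (B := B)]
  constructor
  · intro h X D n _ hD h0
    exact h X D n hD h0
  · intro h X D n hD h0
    have hdim : ∀ m, 1 ≤ m → ∃ Y : 𝒱.Obj, Y.dim = m := fun m hm => ⟨powObj T (m - 1), by
      rw [dim_powObj, hT, mul_one, Nat.sub_add_cancel hm]⟩
    rcases lt_trichotomy (2 * n) X.dim with h1 | h1 | h1
    · obtain ⟨Y, hY⟩ := hdim (X.dim - 2 * n) (by omega)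
      obtain ⟨y, hy, hPy⟩ := exists_ht_dim (C := C) Y
      have hu : C.Deg 1 (C.pull (fst X Y) D) := C.pull_mem _ hD
      have hv : C.Deg 1 (C.pull (snd X Y) y) := C.pull_mem _ hy
      have h2 : (C.pull (fst X Y) D + C.pull (snd X Y) y) ^ (n + Y.dim) ∈
          homFam H (X.prod Y) (n + Y.dim : ℕ) := by
        refine add_pow_mem (isAdequate_homFam H) hu hv ?_ ?_
        · rw [← map_pow]
          exact (isAdequate_homFam H).pull_mem _ ((pow_homFam hD n).2 h0)
        · rw [← map_pow, pow_top hy (Nat.lt_succ_self _), map_zero]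
          exact Submodule.zero_mem _
      have hD' : C.Deg 1 (C.pull (fst X Y) D + C.pull (snd X Y) y) := Submodule.add_mem _ hu hv
      have h3 := h (X.prod Y) _ (n + Y.dim) (by rw [dim_prod]; omega) hD' h2.2
      rw [smashNilpotent_iff (pow_deg hD' _)] at h3
      rw [smashNilpotent_iff (pow_deg hD n)]
      intro P hP
      by_contra hn
      obtain ⟨e, hne, he⟩ := exists_ht hP hD hn
      exact (Ht.add hP hD hy he (hPy P hP)).1
        (pow_mem_of_le hP.toIsAdequate hD' (by omega) (h3 P hP))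
    · exact h X D n h1.symm hD h0
    · obtain ⟨Y, hY⟩ := hdim (2 * n - X.dim) (by omega)
      have hD' : C.Deg 1 (C.pull (fst X Y) D) := C.pull_mem _ hD
      have h3 := h (X.prod Y) _ n (by rw [dim_prod]; omega) hD' (by
        rw [← map_pow]
        exact ((isAdequate_homFam H).pull_mem (fst X Y) ((pow_homFam hD n).2 h0)).2)
      rw [smashNilpotent_iff (pow_deg hD' _)] at h3
      rw [smashNilpotent_iff (pow_deg hD n)]
      intro P hP
      have h4 : C.ext (D ^ n) (1 : C.A Y) ∈ P (X.prod Y) (n + 0) := by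
        rw [TheoryData.ext, map_one, mul_one, map_pow, add_zero]
        exact h3 P hP
      rcases hP.prime (pow_deg hD n) (C.one_mem Y) h4 with h5 | h5
      · exact h5
      · exact absurd h5 (hP.one_notMem Y)

end Pool.Agent.K1H14.VD
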