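import Pool.Agent.K1H14.VD.Defs

/-!
# Rational and numerical equivalence: definitions
-/

open CategoryTheory AlgebraicGeometry

universe u v

namespace Pool.Agent.K1H14.VD

open Pool.Agent.H914 Pool.Agent.H914.VarClass Pool.Agent.H914.VarClass.Obj Pool.Agent.W492.BB
  Pool.Agent.W550.Corr Pool.Agent.TH133 Pool.Agent.TH829.Prime

variable {k : Type u} [Field k] {𝒱 : VarClass k}

/-- Rational and numerical equivalence coincide on `X`: numerically trivial classes with rational
coefficients on `X` are zero. -/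
def RationalEqNumerical (C : TheoryData.{u, v, 0} 𝒱 ℚ) (X : 𝒱.Obj) : Prop :=
  ∀ (i : ℤ) (a : C.A X), C.Deg i a → NumTrivial C i a → a = 0

/-- If `dim X = 2n` and the power `D^n` of a divisor class on `X` is numerically trivial, it is
zero. -/
def MiddlePowers (C : TheoryData.{u, v, 0} 𝒱 ℚ) : Prop :=
  ∀ (X : 𝒱.Obj) (D : C.A X) (n : ℕ), X.dim = 2 * n → C.Deg 1 D → NumTrivial C n (D ^ n) →
    D ^ n = 0

end Pool.Agent.K1H14.VD
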