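import Pool.Agent.K1H14.VD.Grow
import Pool.Agent.K1H14.VD.Num

/-!
# Adequate relations and powers of divisors in the middle dimension
-/

open CategoryTheory AlgebraicGeometry

universe u v w t

namespace Pool.Agent.K1H14.VD

open Pool.Agent.H914 Pool.Agent.H914.VarClass Pool.Agent.H914.VarClass.Obj Pool.Agent.W492.BB
  Pool.Agent.W550.Corr Pool.Agent.TH133 Pool.Agent.TH829.Prime Pool.Agent.TH829.Kim
  Pool.Agent.K1H14.LD Pool.Agent.Y110

set_option linter.unusedSectionVars false

variable {k : Type u} [Field k] {𝒱 : VarClass k} {C : TheoryData.{u, v, 0} 𝒱 ℚ}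
  [hC : IsChowProj C] {X Y : 𝒱.Obj}

include hC

/-- If the power `(D + h)^(n + a)` on `X × Y` lies in `I`, where `a = dim Y` and `h` is a
polarization of `Y`, then `D^n` lies in `I`. -/
lemma pow_mem_of_sum {I : Family C} (hI : IsAdequate C I) {D : C.A X} (hD : C.Deg 1 D) {y : C.A Y}
    (hy : C.Deg 1 y) {q : ℚ} (hq : q ≠ 0)
    (hdeg : C.push (fst X Y) (C.pull (snd X Y) (y ^ Y.dim)) = q • (1 : C.A X)) {n : ℕ}
    (h : (C.pull (fst X Y) D + C.pull (snd X Y) y) ^ (n + Y.dim) ∈
      I (X.prod Y) (n + Y.dim : ℕ)) : D ^ n ∈ I X n := by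
  have h1 := hI.push_mem (fst X Y) h
  rw [TheoryData.down, add_pow', map_sum] at h1
  have key : ∀ m ∈ Finset.range (n + Y.dim + 1), m ≠ n →
      C.push (fst X Y) ((((n + Y.dim).choose m : ℕ) : ℚ) •
        (C.pull (fst X Y) D ^ m * C.pull (snd X Y) y ^ (n + Y.dim - m))) = 0 := by
    intro m hm hmn
    rw [Finset.mem_range] at hm
    rw [map_smul, ← map_pow, ← map_pow, C.proj_left]
    have h2 : C.push (fst X Y) (C.pull (snd X Y) (y ^ (n + Y.dim - m))) = 0 := by
      rcases lt_or_gt_of_ne hmn with h3 | h3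
      · rw [pow_top hy (by omega), map_zero, map_zero]
      · have h4 := C.push_mem (fst X Y) (C.pull_mem (snd X Y) (pow_deg hy (n + Y.dim - m)))
        rw [C.gr_neg _ _ (by
          rw [dim_prod, Nat.cast_sub (by omega)]
          push_cast
          have : (n : ℤ) < m := by exact_mod_cast h3
          linarith), Submodule.mem_bot] at h4
        exact h4
    rw [h2, mul_zero, smul_zero]
  rw [Finset.sum_eq_single_of_mem n (Finset.mem_range.2 (by omega)) key, map_smul, ← map_pow,
    ← map_pow, C.proj_left, Nat.add_sub_cancel_left, hdeg, mul_smul_comm, mul_one, smul_smul] at h1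
  have h2 : (((n + Y.dim).choose n : ℕ) : ℚ) * q ≠ 0 := by
    refine mul_ne_zero ?_ hq
    exact_mod_cast (Nat.choose_pos (by omega : n ≤ n + Y.dim)).ne'
  have h3 := Submodule.smul_mem _ ((((n + Y.dim).choose n : ℕ) : ℚ) * q)⁻¹ h1
  rw [smul_smul, inv_mul_cancel₀ h2, one_smul] at h3
  refine hI.congr ?_ h3
  rw [dim_prod]; push_cast; ring

/-- Pull-back to a product is injective modulo an adequate relation. -/
lemma mem_of_pull_fst {I : Family C} (hI : IsAdequate C I) {i : ℤ} {a : C.A X}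
    (h : C.pull (fst X Y) a ∈ I (X.prod Y) i) : a ∈ I X i := by
  obtain ⟨z, hz, h1, -⟩ := hC.exists_deg_one Y
  have h2 := hI.push_mem (fst X Y) (hI.mul_mem h (C.pull_mem (snd X Y) hz))
  rw [TheoryData.down, TheoryData.mul, C.proj_left] at h2
  have h3 := h1 X
  rw [TheoryData.down, TheoryData.up] at h3
  rw [h3, mul_one] at h2
  refine hI.congr ?_ h2
  rw [dim_prod]; push_cast; ring

/-- A polarization and its degree. -/
lemma exists_polarization (Y : 𝒱.Obj) : ∃ y : C.A Y, C.Deg 1 y ∧ ((1 : C.A Y) = 0 ∨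
    ∃ q : ℚ, q ≠ 0 ∧ ∀ X : 𝒱.Obj,
      C.push (fst X Y) (C.pull (snd X Y) (y ^ Y.dim)) = q • (1 : C.A X)) := by
  obtain ⟨y, hy, q, hq, h1⟩ := hC.polarized Y
  refine ⟨y, hy, ?_⟩
  obtain ⟨q', hq'⟩ := hC.degree Y (y ^ Y.dim) (pow_deg hy _)
  by_cases h0 : q' = 0
  · left
    have h2 := (hq' Y).1
    rw [h1, h0, zero_smul] at h2
    have h3 := congrArg (fun z => q⁻¹ • z) h2
    simp only [smul_smul, inv_mul_cancel₀ hq, one_smul, smul_zero] at h3
    exact h3
  · exact Or.inr ⟨q', h0, fun X => (hq' X).2⟩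

variable {B : BundleData.{u, v, t} C} [hB : IsBundles B]

include hB

/-- Adequate relations are determined by the powers of divisor classes in the middle dimension
which are equivalent to zero. -/
theorem le_of_middle {T : 𝒱.Obj} (hT : T.dim = 1) {I J : Family C} (hI : IsAdequate C I)
    (hJ : IsAdequate C J)
    (h : ∀ (X : 𝒱.Obj) (D : C.A X) (n : ℕ), X.dim = 2 * n → C.Deg 1 D → D ^ n ∈ J X n →
      D ^ n ∈ I X n) (X : 𝒱.Obj) (i : ℤ) : J X i ≤ I X i := by
  refine le_of_powers (B := B) hI hJ ?_ X i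
  intro X D n hD h0
  have hdim : ∀ m, 1 ≤ m → ∃ Y : 𝒱.Obj, Y.dim = m := fun m hm => ⟨powObj T (m - 1), by
    rw [dim_powObj, hT, mul_one, Nat.sub_add_cancel hm]⟩
  rcases lt_trichotomy (2 * n) X.dim with h1 | h1 | h1
  · obtain ⟨Y, hY⟩ := hdim (X.dim - 2 * n) (by omega)
    obtain ⟨y, hy, h2 | ⟨q, hq, h2⟩⟩ := exists_polarization (C := C) Y
    · have h3 : (1 : C.A Y) ∈ I Y 0 := by
        rw [h2]
        exact Submodule.zero_mem _
      exact hI.eq_top_of h3 (pow_deg hD n)
    · have hu : C.Deg 1 (C.pull (fst X Y) D) := C.pull_mem _ hD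
      have hv : C.Deg 1 (C.pull (snd X Y) y) := C.pull_mem _ hy
      have h3 : (C.pull (fst X Y) D + C.pull (snd X Y) y) ^ (n + Y.dim) ∈
          J (X.prod Y) (n + Y.dim : ℕ) := by
        refine add_pow_mem hJ hu hv ?_ ?_
        · rw [← map_pow]
          exact hJ.pull_mem _ h0
        · rw [← map_pow, pow_top hy (Nat.lt_succ_self _), map_zero]
          exact Submodule.zero_mem _
      exact pow_mem_of_sum hI hD hy hq (h2 X)
        (h (X.prod Y) _ (n + Y.dim) (by rw [dim_prod]; omega) (Submodule.add_mem _ hu hv) h3)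
  · exact h X D n h1.symm hD h0
  · obtain ⟨Y, hY⟩ := hdim (2 * n - X.dim) (by omega)
    have h3 := h (X.prod Y) (C.pull (fst X Y) D) n (by rw [dim_prod]; omega) (C.pull_mem _ hD) (by
      rw [← map_pow]
      exact hJ.pull_mem _ h0)
    rw [← map_pow] at h3
    exact mem_of_pull_fst hI h3

/-- Rational and numerical equivalence. -/
theorem rational_iff {T : 𝒱.Obj} (hT : T.dim = 1) :
    (∀ X : 𝒱.Obj, RationalEqNumerical C X) ↔ MiddlePowers C := by
  constructor
  · intro h X D n _ hD h0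
    exact h X n _ (pow_deg hD n) h0
  · intro h
    by_cases hne : ∀ X : 𝒱.Obj, (1 : C.A X) ≠ 0
    · intro X i a ha h0
      have h1 := le_of_middle (B := B) hT (isAdequate_bot (C := C)) (isAdequate_numFam hne) (by
        intro X D n hX hD h2
        rw [Submodule.mem_bot]
        exact h X D n hX hD h2.2) X i ⟨ha, h0⟩
      rwa [Submodule.mem_bot] at h1
    · push Not at hne
      obtain ⟨Z, hZ⟩ := hne
      intro X i a ha _
      have h1 : (1 : C.A Z) ∈ (fun _ _ => ⊥ : Family C) Z 0 := by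
        rw [hZ]
        exact Submodule.zero_mem _
      have h2 := (isAdequate_bot (C := C)).eq_top_of h1 ha
      rwa [Submodule.mem_bot] at h2

end Pool.Agent.K1H14.VD
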